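import Mathlib

namespace Pool.Agent.H.MP_3dc8bf_an

open Filter Topology Finset
open scoped ENNReal

abbrev L1 : Type := lp (fun _ : ℕ => ℝ) 1
def E : Type := L1
noncomputable instance : NormedAddCommGroup E := inferInstanceAs (NormedAddCommGroup L1)
noncomputable instance : NormedSpace ℝ E := inferInstanceAs (NormedSpace ℝ L1)
instance : CompleteSpace E := inferInstanceAs (CompleteSpace L1)

noncomputable def ev (k : ℕ) : E →L[ℝ] ℝ := lp.evalCLM ℝ (fun _ : ℕ => ℝ) 1 k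
noncomputable def e (k : ℕ) : E := (lp.single 1 k 1 : L1)

lemma e_norm (k : ℕ) : ‖e k‖ = 1 := by
  show ‖(lp.single 1 k 1 : L1)‖ = 1
  rw [lp.norm_single (by simp)]; simp

lemma ev_e (k l : ℕ) : ev k (e l) = if k = l then 1 else 0 := by
  show (lp.single 1 l 1 : L1) k = _
  rw [lp.single_apply, Pi.single_apply]

lemma sum_le (x : E) (s : Finset ℕ) : ∑ k ∈ s, |ev k x| ≤ ‖x‖ := by
  have := lp.sum_rpow_le_norm_rpow (by simp) (x : L1) s
  simp only [ENNReal.toReal_one, Real.rpow_one] at this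
  exact this

def sg (A : Finset ℕ) (k : ℕ) : ℝ := if k ∈ A then 1 else -1

lemma sg_abs (A : Finset ℕ) (k : ℕ) : |sg A k| = 1 := by unfold sg; split_ifs <;> simp

lemma sg_sq (A : Finset ℕ) (k : ℕ) : sg A k * sg A k = 1 := by unfold sg; split_ifs <;> simp

lemma rad (s : Finset ℕ) (c : ℕ → ℝ) :
    ∑ A ∈ s.powerset, (∑ k ∈ s, sg A k * c k) ^ 2 = 2 ^ s.card * ∑ k ∈ s, c k ^ 2 := by
  induction s using Finset.induction_on with
  | empty => simp
  | insert j s hj ih =>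
    rw [sum_powerset_insert hj, ← sum_add_distrib, card_insert_of_notMem hj, sum_insert hj,
      sum_congr rfl (g := fun A => 2 * (∑ k ∈ s, sg A k * c k) ^ 2 + 2 * c j ^ 2) fun A hA => ?_,
      sum_add_distrib, ← mul_sum, ih, sum_const, card_powerset, nsmul_eq_mul]
    · push_cast; ring
    · have h1 : j ∉ A := fun h => hj (mem_powerset.1 hA h)
      have h2 : ∑ k ∈ s, sg (insert j A) k * c k = ∑ k ∈ s, sg A k * c k :=
        sum_congr rfl fun k hk => by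
          have : k ≠ j := fun h => hj (h ▸ hk)
          simp [sg, this]
      rw [sum_insert hj, sum_insert hj, h2, sg, sg, if_neg h1, if_pos (mem_insert_self j A)]
      ring

noncomputable def f (n : ℕ) (A : Finset ℕ) : E →L[ℝ] ℝ := ∑ k ∈ range n, sg A k • ev k

lemma f_app (n : ℕ) (A : Finset ℕ) (x : E) : f n A x = ∑ k ∈ range n, sg A k * ev k x := by
  rw [f, _root_.sum_apply]; rfl

lemma f_le (n : ℕ) (A : Finset ℕ) (x : E) : |f n A x| ≤ ‖x‖ := by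
  rw [f_app]
  refine (abs_sum_le_sum_abs _ _).trans (le_trans (le_of_eq ?_) (sum_le x (range n)))
  exact sum_congr rfl fun k _ => by rw [abs_mul, sg_abs, one_mul]

lemma sq_le (x : E) (n : ℕ) : ∑ k ∈ range n, ev k x ^ 2 ≤ ‖x‖ ^ 2 := by
  refine le_trans ?_ (pow_le_pow_left₀ (sum_nonneg fun _ _ => abs_nonneg _) (sum_le x (range n)) 2)
  refine le_trans (le_of_eq ?_) (sum_sq_le_sq_sum_of_nonneg fun _ _ => abs_nonneg _)
  simp

noncomputable def q (x : E) : ℝ := ∑' k, ev k x ^ 2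

lemma q_sum (x : E) : Summable fun k => ev k x ^ 2 :=
  summable_of_sum_range_le (fun _ => sq_nonneg _) (sq_le x)

lemma q_le (x : E) : q x ≤ ‖x‖ ^ 2 := Real.tsum_le_of_sum_range_le (fun _ => sq_nonneg _) (sq_le x)

lemma weak (x : ℕ → E) (w : ℝ) (m : ℕ)
    (h : ∀ φ : E →L[ℝ] ℝ, ‖φ‖ ≤ 1 → ∑ j ∈ range m, φ (x j) ^ 2 ≤ w) :
    ∑ j ∈ range m, q (x j) ≤ w := by
  refine le_of_tendsto' (tendsto_finsetSum _ fun j _ => (q_sum (x j)).hasSum.tendsto_sum_nat)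
    fun n => ?_
  have h1 := sum_le_card_nsmul (range n).powerset _ w fun A _ =>
    h (f n A) ((f n A).opNorm_le_bound zero_le_one fun x => by rw [one_mul]; exact f_le n A x)
  rw [sum_comm, card_powerset, nsmul_eq_mul] at h1
  simp only [f_app, rad, ← mul_sum] at h1
  push_cast at h1
  exact le_of_mul_le_mul_left h1 (by positivity)

abbrev S : Type := {ψ : E →L[ℝ] E →L[ℝ] ℝ //
  ∀ x a, ψ x a ^ 2 ≤ q x * ‖a‖ ^ 2 ∧ ψ a x ^ 2 ≤ q x * ‖a‖ ^ 2}
abbrev L : Type := lp (fun _ : S => ℝ) ∞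
def F : Type := L
noncomputable instance : NormedAddCommGroup F := inferInstanceAs (NormedAddCommGroup L)
noncomputable instance : NormedSpace ℝ F := inferInstanceAs (NormedSpace ℝ L)
instance : CompleteSpace F := inferInstanceAs (CompleteSpace L)

lemma S_le (ψ : S) (x y : E) : ‖ψ.1 x y‖ ≤ ‖x‖ * ‖y‖ := by
  refine abs_le_of_sq_le_sq' ((sq_abs _).trans_le ((ψ.2 x y).1.trans ?_)) (by positivity) |>.2
  rw [mul_pow]
  exact mul_le_mul_of_nonneg_right (q_le x) (sq_nonneg _)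

noncomputable def T0 (x y : E) : F :=
  (⟨fun ψ => ψ.1 x y, memℓp_infty ⟨‖x‖ * ‖y‖, by rintro _ ⟨ψ, rfl⟩; exact S_le ψ x y⟩⟩ : L)

lemma T0_le (x y : E) {r : ℝ} (hr : 0 ≤ r) (h : ∀ ψ : S, |ψ.1 x y| ≤ r) : ‖T0 x y‖ ≤ r :=
  lp.norm_le_of_forall_le (f := (T0 x y : L)) hr h

noncomputable def T : E →L[ℝ] E →L[ℝ] F :=
  LinearMap.mkContinuous₂ (LinearMap.mk₂ ℝ T0
    (fun a b y => lp.ext (funext fun ψ => congrArg (· y) (map_add ψ.1 a b)))
    (fun c a y => lp.ext (funext fun ψ => congrArg (· y) (map_smul ψ.1 c a)))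
    (fun x a b => lp.ext (funext fun ψ => map_add (ψ.1 x) a b))
    (fun c x a => lp.ext (funext fun ψ => map_smul (ψ.1 x) c a))) 1
    fun x y => by rw [one_mul]; exact T0_le x y (by positivity) fun ψ => S_le ψ x y

lemma q0 (x : E) : 0 ≤ q x := tsum_nonneg fun _ => sq_nonneg _

lemma T_le (x a : E) : ‖T x a‖ ^ 2 ≤ q x * ‖a‖ ^ 2 ∧ ‖T a x‖ ^ 2 ≤ q x * ‖a‖ ^ 2 := by
  have := q0 x
  constructor <;> rw [← Real.le_sqrt (norm_nonneg _) (by positivity)]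
  · exact T0_le x a (Real.sqrt_nonneg _) fun ψ => Real.abs_le_sqrt (ψ.2 x a).1
  · exact T0_le a x (Real.sqrt_nonneg _) fun ψ => Real.abs_le_sqrt (ψ.2 x a).2

noncomputable def v (n : ℕ) (A : Finset ℕ) : E := ∑ k ∈ range n, sg A k • e k

lemma f_v (n : ℕ) (A : Finset ℕ) : f n A (v n A) = n := by
  rw [f_app, sum_congr rfl (g := fun _ => (1:ℝ)) fun k hk => ?_]
  · simp
  · rw [v, map_sum]
    simp only [map_smul, ev_e, smul_eq_mul, mul_ite, mul_one, mul_zero, sum_ite_eq, if_pos hk, sg_sq]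

lemma f_sq (n : ℕ) (A : Finset ℕ) (x : E) : f n A x ^ 2 ≤ n * q x := by
  rw [f_app]
  refine (sum_mul_sq_le_sq_mul_sq _ _ _).trans (mul_le_mul (le_of_eq ?_)
    ((q_sum x).sum_le_tsum _ fun _ _ => sq_nonneg _) (sum_nonneg fun _ _ => sq_nonneg _)
    (Nat.cast_nonneg _))
  simp [sq, sg_sq]

lemma low (n : ℕ) (hn : 0 < n) (A B : Finset ℕ) : (n : ℝ) ^ 3 ≤ ‖T (v n A) (v n B)‖ ^ 2 := by
  have hp : (0:ℝ) < n := Nat.cast_pos.2 hn
  have e1 : ((√n)⁻¹ : ℝ) ^ 2 = (n : ℝ)⁻¹ := by rw [inv_pow, Real.sq_sqrt hp.le]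
  have key : ∀ (A B : Finset ℕ) (x a : E), ((√n)⁻¹ * (f n A x * f n B a)) ^ 2 ≤ q x * ‖a‖ ^ 2 := by
    intro A B x a
    rw [mul_pow, mul_pow, e1, ← mul_assoc]
    refine mul_le_mul ?_ (sq_le_sq' (abs_le.1 (f_le n B a)).1 (abs_le.1 (f_le n B a)).2)
      (sq_nonneg _) (q0 x)
    rw [inv_mul_le_iff₀ hp]
    exact f_sq n A x
  let ψ : S := ⟨(√n)⁻¹ • (f n A).smulRight (f n B), fun x a => ⟨key A B x a, by
    have := key B A x a
    rwa [mul_comm (f n B x)] at this⟩⟩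
  have h1 : |(√n)⁻¹ * (f n A (v n A) * f n B (v n B))| ≤ ‖T (v n A) (v n B)‖ :=
    lp.norm_apply_le_norm (by simp) (T0 (v n A) (v n B) : L) ψ
  have h2 := pow_le_pow_left₀ (abs_nonneg _) h1 2
  rw [sq_abs, f_v, f_v, mul_pow, e1] at h2
  refine le_trans (le_of_eq ?_) h2
  field_simp

lemma up (n : ℕ) (φ : E →L[ℝ] E →L[ℝ] ℝ) (h : ‖φ‖ ≤ 1) :
    ∑ A ∈ (range n).powerset, ∑ B ∈ (range n).powerset, φ (v n A) (v n B) ^ 2 ≤ (2 ^ n * n) ^ 2 := by
  have e1 : ∀ (g : E →L[ℝ] ℝ), ∑ B ∈ (range n).powerset, g (v n B) ^ 2 =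
      2 ^ n * ∑ l ∈ range n, g (e l) ^ 2 := fun g => by
    simp only [v, map_sum, map_smul, smul_eq_mul, rad, card_range]
  simp only [e1]
  have e2 : ∀ l, ∑ A ∈ (range n).powerset, φ (v n A) (e l) ^ 2 =
      2 ^ n * ∑ k ∈ range n, φ.flip (e l) (e k) ^ 2 := fun l => e1 (φ.flip (e l))
  rw [← mul_sum, sum_comm]
  simp only [e2]
  rw [← mul_sum]
  have h1 : ∑ l ∈ range n, ∑ k ∈ range n, φ.flip (e l) (e k) ^ 2 ≤ n * n := by
    have : ∀ l k, φ.flip (e l) (e k) ^ 2 ≤ 1 := fun l k => by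
      have := φ.le_opNorm₂ (e k) (e l)
      rw [e_norm, e_norm, mul_one, mul_one] at this
      exact (sq_le_one_iff_abs_le_one _).2 (this.trans h)
    simpa using sum_le_card_nsmul (range n) _ (n : ℝ) fun l _ => by
      simpa using sum_le_card_nsmul (range n) _ 1 fun k _ => this l k
  have h2 : (0:ℝ) < 2 ^ n := by positivity
  nlinarith [mul_le_mul_of_nonneg_left h1 (mul_pos h2 h2).le]

end Pool.Agent.H.MP_3dc8bf_an
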